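import Pool.Agent.Y142.ZI.Stm
import Pool.Agent.Y405.ZI.TypU

/-!
Project OI (helper282), job TYPT: local type `transposition of two pairs`.
-/

set_option autoImplicit false

open Matrix Polynomial Filter Topology NumberField IsDedekindDomain
open Pool.Agent.Y142.ZO Pool.Agent.Y142.ZI Pool.Agent.Y405.ZI

namespace Pool.Agent.Q247.OI.TYPT

/-- the multiplicities -/
def mu {n : ℕ} (i : Fin (n + 1)) : ℕ := if i = 0 then 2 else 1

theorem sum_mu (n : ℕ) : ∑ i : Fin (n + 1), mu i = n + 2 := by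
  rw [Fin.sum_univ_succ]
  have h : ∀ i : Fin n, mu i.succ = 1 := fun i => by
    simp [mu, Fin.succ_ne_zero]
  simp only [h]
  simp [mu]
  omega

theorem mu_pos {n : ℕ} (i : Fin (n + 1)) : 0 < mu i := by
  unfold mu; split_ifs <;> norm_num

/-- the centres of the positive clusters -/
def be (ℓ : ℕ) {n : ℕ} (i : Fin (n + 1)) : ℤ := ((i : ℕ) : ℤ) + 1 - if i = 0 then 0 else (ℓ : ℤ)

/-- the index set -/
abbrev J (n : ℕ) : Type := Option (Fin (n + 1) ⊕ Fin (n + 1))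

def bz (ℓ : ℕ) {n : ℕ} : J n → ℤ
  | none => 0
  | some (Sum.inl i) => be ℓ i
  | some (Sum.inr i) => - be ℓ i

def rz {n : ℕ} : J n → ℤ
  | none => 0
  | some (Sum.inl i) => ((i : ℕ) : ℤ) + 1
  | some (Sum.inr i) => - (((i : ℕ) : ℤ) + 1)

def mz {n : ℕ} : J n → ℕ
  | none => 2
  | some (Sum.inl i) => mu i
  | some (Sum.inr i) => mu i

theorem rz_inj {n : ℕ} {i j : J n} (h : rz i = rz j) : i = j := by
  rcases i with _ | i | i <;> rcases j with _ | j | j <;> simp only [rz] at h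
  · rfl
  · omega
  · omega
  · omega
  · have : (i : ℕ) = j := by omega
    rw [Fin.ext this]
  · omega
  · omega
  · omega
  · have : (i : ℕ) = j := by omega
    rw [Fin.ext this]

theorem rz_le {n : ℕ} (i : J n) : |rz i| ≤ n + 1 := by
  rcases i with _ | i | i <;> simp only [rz]
  · simp; omega
  · have := i.2; rw [abs_le]; constructor <;> omega
  · have := i.2; rw [abs_le]; constructor <;> omega

theorem be_mod (ℓ : ℕ) {n : ℕ} (i : Fin (n + 1)) : (ℓ : ℤ) ∣ be ℓ i - (((i : ℕ) : ℤ) + 1) := by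
  unfold be
  split_ifs
  · simp
  · exact ⟨-1, by ring⟩

theorem bz_mod (ℓ : ℕ) {n : ℕ} (i : J n) : (ℓ : ℤ) ∣ bz ℓ i - rz i := by
  rcases i with _ | i | i <;> simp only [rz, bz]
  · simp
  · exact be_mod ℓ i
  · have h := be_mod ℓ i
    have e : -be ℓ i - -(((i : ℕ) : ℤ) + 1) = -(be ℓ i - (((i : ℕ) : ℤ) + 1)) := by ring
    rw [e]
    exact (dvd_neg).2 h

theorem bz_ndvd {ℓ n : ℕ} (hn : 2 * (n + 2) + 2 < ℓ) {i j : J n} (hij : i ≠ j) :
    ¬ (ℓ : ℤ) ∣ bz ℓ i - bz ℓ j := by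
  intro h
  apply hij
  apply rz_inj
  have h1 : (ℓ : ℤ) ∣ rz i - rz j := by
    have h2 := dvd_sub h (dvd_sub (bz_mod ℓ i) (bz_mod ℓ j))
    have e : bz ℓ i - bz ℓ j - (bz ℓ i - rz i - (bz ℓ j - rz j)) = rz i - rz j := by ring
    rwa [e] at h2
  have h3 : |rz i - rz j| < (ℓ : ℤ) := by
    have h4 := rz_le i
    have h5 := rz_le j
    rw [abs_le] at h4 h5
    rw [abs_lt]
    constructor <;> omega
  have h4 := Int.eq_zero_of_abs_lt_dvd h1 h3
  omega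

variable {ℓ : ℕ} [hℓ : Fact ℓ.Prime]

theorem norm_one_of_ndvd {z : ℤ} (h : ¬ (ℓ : ℤ) ∣ z) : ‖(z : ℚ_[ℓ])‖ = 1 := by
  have h1 : ‖(z : ℚ_[ℓ])‖ ≤ 1 := Padic.norm_int_le_one z
  by_contra h2
  exact h (Padic.norm_intCast_lt_one_iff.1 (lt_of_le_of_ne h1 h2))

/-- the positive half of the polynomial -/
noncomputable def pp (ℓ : ℕ) [Fact ℓ.Prime] (n : ℕ) : ℚ_[ℓ][X] :=
  ∏ i : Fin (n + 1), ((X - C (be ℓ i : ℚ_[ℓ])) ^ mu i - C (ℓ : ℚ_[ℓ]))

theorem fac_monic (a b : ℚ_[ℓ]) {k : ℕ} (hk : 0 < k) : ((X - C a) ^ k - C b).Monic := by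
  apply ((monic_X_sub_C a).pow k).sub_of_left
  refine degree_C_le.trans_lt ?_
  rw [degree_pow, degree_X_sub_C, nsmul_eq_mul, mul_one]
  exact_mod_cast hk

theorem fac_deg (a b : ℚ_[ℓ]) (k : ℕ) : ((X - C a) ^ k - C b).natDegree = k := by
  rw [natDegree_sub_C, natDegree_pow, natDegree_X_sub_C, mul_one]

theorem pp_monic (n : ℕ) : (pp ℓ n).Monic :=
  monic_prod_of_monic _ _ fun i _ => fac_monic _ _ (mu_pos i)

theorem pp_deg (n : ℕ) : (pp ℓ n).natDegree = n + 2 := by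
  unfold pp
  rw [natDegree_prod_of_monic _ _ fun i _ => fac_monic _ _ (mu_pos i)]
  simp only [fac_deg]
  exact sum_mu n

theorem charp {n : ℕ} (A : Matrix (Fin (n + 2)) (Fin (n + 2)) ℚ_[ℓ]) (hA : A.charpoly = pp ℓ n) :
    (-A).charpoly =
      ∏ i : Fin (n + 1), ((X - C (-(be ℓ i : ℚ_[ℓ]))) ^ mu i - C ((-1) ^ mu i * (ℓ : ℚ_[ℓ]))) := by
  rw [charpoly_neg', hA]
  unfold pp
  rw [← sum_mu n, ← Finset.prod_pow_eq_pow_sum, prod_comp, ← Finset.prod_mul_distrib]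
  refine Finset.prod_congr rfl fun i _ => ?_
  simp only [sub_comp, pow_comp, X_comp, C_comp, map_mul, map_pow, map_neg, map_one]
  have h1 : (-X - C (be ℓ i : ℚ_[ℓ]) : ℚ_[ℓ][X]) = (-1) * (X - -C (be ℓ i : ℚ_[ℓ])) := by ring
  rw [h1, mul_pow, mul_sub, ← mul_assoc, ← mul_pow]
  simp

theorem t (h : S_CLQ) (hc : S_COMP) : S_TYPT := by
  intro ℓ hℓ m hm hm2
  obtain ⟨n, rfl⟩ : ∃ n, m = n + 2 := ⟨m - 2, by omega⟩
  have h2 : ℓ ≠ 2 := by omega
  obtain ⟨A, hA⟩ := hc ℚ_[ℓ] (n + 2) _ (pp_monic (ℓ := ℓ) n) (pp_deg n)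
  have hA' := charp A hA
  refine ⟨A, fun c hcn => ?_⟩
  let cc : J n → ℚ_[ℓ] := fun j => match j with
    | none => c
    | some (Sum.inl _) => (ℓ : ℚ_[ℓ])
    | some (Sum.inr i) => (-1) ^ mu i * (ℓ : ℚ_[ℓ])
  have hb1 : ∀ i j : J n, i ≠ j → ‖((bz ℓ i : ℤ) : ℚ_[ℓ]) - ((bz ℓ j : ℤ) : ℚ_[ℓ])‖ = 1 := by
    intro i j hij
    have h3 := norm_one_of_ndvd (ℓ := ℓ) (bz_ndvd hm hij)
    rwa [Int.cast_sub] at h3
  obtain ⟨ε, hε, hQ⟩ := h ℓ h2 (J n) (fun j => ((bz ℓ j : ℤ) : ℚ_[ℓ])) cc mz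
    (fun j => Padic.norm_int_le_one _) hb1
    (by
      intro j
      rcases j with _ | j | j
      · simp [mz]
      · exact mu_pos j
      · exact mu_pos j)
    (by
      intro j
      rcases j with _ | j | j
      · exact hcn
      · exact Padic.norm_p
      · show ‖(-1) ^ mu j * (ℓ : ℚ_[ℓ])‖ = _
        rw [norm_mul, norm_pow, norm_neg, norm_one, one_pow, one_mul]
        exact Padic.norm_p)
  refine ⟨ε, hε, ?_⟩
  intro k Q hk hQm hQd hinv hcoef F hF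
  obtain ⟨-, q1, q2, q3, q4, q5, q6, q7⟩ := hQ k Q hk hQm (by
    rw [hQd, Fintype.sum_option, Fintype.sum_sum_type]
    show 2 * (n + 2) + 2 = 2 + (∑ i : Fin (n + 1), mu i + ∑ i : Fin (n + 1), mu i)
    rw [sum_mu]
    ring) hinv (by
    intro i
    have h3 : ∏ j : J n, ((X - C ((bz ℓ j : ℤ) : ℚ_[ℓ])) ^ (mz j) - C (cc j)) =
        (X ^ 2 - C c) * A.charpoly * (-A).charpoly := by
      rw [Fintype.prod_option, Fintype.prod_sum_type, hA, hA', mul_assoc]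
      refine congrArg₂ (· * ·) ?_ (congrArg₂ (· * ·) rfl ?_)
      · show (X - C ((0 : ℤ) : ℚ_[ℓ])) ^ 2 - C c = _
        simp
      · refine Finset.prod_congr rfl fun i _ => ?_
        show (X - C ((-be ℓ i : ℤ) : ℚ_[ℓ])) ^ mu i - C ((-1) ^ mu i * (ℓ : ℚ_[ℓ])) = _
        rw [Int.cast_neg]
    rw [h3]
    exact hcoef i)
  have hQ1 : Q.eval 1 ≠ 0 := q1 (by
    intro j hj
    by_cases hj0 : j = none
    · rw [hj0]; simp [bz]
    · exfalso
      have h3 := hb1 j none hj0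
      have h4 : ‖((bz ℓ j : ℤ) : ℚ_[ℓ])‖ < 1 := hj
      have h5 : ((bz ℓ (none : J n) : ℤ) : ℚ_[ℓ]) = 0 := by simp [bz]
      rw [h5, sub_zero] at h3
      rw [h3] at h4
      exact lt_irrefl _ h4)
  have hb0 : ((bz ℓ (none : J n) : ℤ) : ℚ_[ℓ]) = 0 := by simp [bz]
  -- the cluster of `1`
  have hc1 := q4 (some (Sum.inl 0))
  have hmu0 : mz (some (Sum.inl 0) : J n) = 2 := by simp [mz, mu]
  rw [hmu0] at hc1
  obtain ⟨x, y, hxy, hset⟩ := Set.ncard_eq_two.1 hc1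
  have hx : x ∈ Clus ℓ k Q ((bz ℓ (some (Sum.inl 0) : J n) : ℤ) : ℚ_[ℓ]) := by rw [hset]; simp
  have hy : y ∈ Clus ℓ k Q ((bz ℓ (some (Sum.inl 0) : J n) : ℤ) : ℚ_[ℓ]) := by rw [hset]; simp
  obtain ⟨τ, hτ⟩ := q7 F hF (some (Sum.inl 0)) x hx y hy
  have hpres : ∀ (j : J n), ∀ z ∈ Clus ℓ k Q ((bz ℓ j : ℤ) : ℚ_[ℓ]),
      τ z ∈ Clus ℓ k Q ((bz ℓ j : ℤ) : ℚ_[ℓ]) := fun j z hz =>
    q6 (τ.restrictScalars ℚ_[ℓ]) j z hz
  have hneg : ∀ i : Fin (n + 1), ((bz ℓ (some (Sum.inl i) : J n) : ℤ) : ℚ_[ℓ]) =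
      -((bz ℓ (some (Sum.inr i) : J n) : ℤ) : ℚ_[ℓ]) := fun i => by simp [bz]
  have hneg' : ∀ i : Fin (n + 1), ((bz ℓ (some (Sum.inr i) : J n) : ℤ) : ℚ_[ℓ]) =
      -((bz ℓ (some (Sum.inl i) : J n) : ℤ) : ℚ_[ℓ]) := fun i => by simp [bz]
  have hone : ∀ (j : J n), mz j = 1 → ∀ z ∈ Clus ℓ k Q ((bz ℓ j : ℤ) : ℚ_[ℓ]), τ z = z := by
    intro j hj z hz
    have h3 := q4 j
    rw [hj] at h3
    obtain ⟨w, hw⟩ := Set.ncard_eq_one.1 h3
    have h4 := hpres j z hz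
    simp only [hw, Set.mem_singleton_iff] at h4 hz
    rw [h4, hz]
  refine ⟨τ, x, y, hx.1, hy.1, hxy.symm, ?_, hτ, ?_, ?_⟩
  · intro he
    have h3 := q5 (some (Sum.inr 0)) (some (Sum.inl 0)) (hneg' 0) x hx
    rw [← he] at h3
    exact Set.disjoint_left.1 (q3 (some (Sum.inl 0)) (some (Sum.inr 0)) (by simp)) hy h3
  · have h3 := hpres _ y hy
    rw [hset] at h3
    rcases h3 with h3 | h3
    · exact h3
    · exfalso
      have h3' : τ y = y := h3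
      exact hxy (τ.injective (hτ.trans h3'.symm))
  · intro z hz hzx hzx' hzy hzy'
    obtain ⟨j, hj⟩ := q2 z hz
    rcases j with _ | i | i
    · have hcard := q4 (none : J n)
      simp only [hb0] at hj hcard
      have hz0 := (hinv z hz).1
      have hi := q5 (none : J n) none (by simp [bz]) z (by simp only [hb0]; exact hj)
      simp only [hb0] at hi
      have h3 := clus0 h2 hQ1 hj hcard hi hz0
      have h4 := hpres (none : J n) z (by simp only [hb0]; exact hj)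
      simp only [hb0] at h4
      exact h3 _ h4
    · by_cases hi : i = 0
      · subst hi
        exfalso
        rw [hset] at hj
        rcases hj with h3 | h3
        · exact hzx h3
        · exact hzy h3
      · exact Or.inl (hone _ (by simp [mz, mu, hi]) z hj)
    · by_cases hi : i = 0
      · subst hi
        exfalso
        have h3 := q5 (some (Sum.inl 0)) (some (Sum.inr 0)) (hneg 0) z hj
        rw [hset] at h3
        rcases h3 with h3 | h3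
        · have h3' : z⁻¹ = x := h3
          exact hzx' (by rw [← h3', inv_inv])
        · have h3' : z⁻¹ = y := h3
          exact hzy' (by rw [← h3', inv_inv])
      · exact Or.inl (hone _ (by simp [mz, mu, hi]) z hj)

end Pool.Agent.Q247.OI.TYPT
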